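import Mathlib
import Pool.Agent.N578.LB.Main
import Pool.Agent.N578.MT.Def
import Pool.Agent.N578.MT.Good

/-!
# The Mumford-Tate conjecture: exceptional Frobenius polynomials are rare in every box of every lattice

Let `g i` (`i` in a finite set `I`) be positive integers. Put `n = ∑ g i`. For a prime power `q` a point `x` of `ℤ ^ n` gives
monic polynomials `h i` of degree `g i` and the polynomials `f i = X ^ (g i) h i (X + q / X)`; the characteristic
polynomials of the abelian varieties of dimension `g i` over the field with `q` elements are of this form.

The property (`MumfordTateFor`): the Mumford-Tate conjecture holds for ALL abelian varieties `A` over number fields (or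
finitely generated fields of characteristic zero) which have good reduction at ONE place with a residue field of `q`
elements, such that the characteristic polynomial of the Frobenius element at this place is the product of the `f i`; and
in the strong form that all Tate classes in the tensor powers of `H^1` are linear combinations of products of Hodge
classes of degree two, so that the Hodge and the Tate conjecture hold for all powers of `A`. Nothing else is assumed about
`A` (endomorphisms, Hodge numbers, other places).

(1) Among all the families of Weil `q`-polynomials of degrees `2 g i` (or of the ordinary ones) the exceptions to this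
property are a proportion `O (q ^ (-1 / 6) log q)`: the conjecture holds for all lifts of almost all isogeny classes.

(2) The exceptions are rare **everywhere**: for all `q` and all `B ≥ 2` the exceptions are a proportion
`O (B ^ (-1 / 3) log B)` of the points in every parallelepiped, with sides at least `B`, of every translate of a lattice of
finite index, where the index may have up to `B ^ (1 / 4)` prime factors and the basis is arbitrary. The constant does not
depend on `q`, so that `B` can be much smaller than `q`, for instance `B = log q`, or a large constant. Diagonal matrices
give the residue classes modulo all numbers, in particular modulo the powers of the characteristic, that is, all Newton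
strata (with first slope smaller than `1 / 2`, in the form `q ∤ tr (h i) ^ 2`). Moreover there is a constant `R` such that
for all `q ≥ R` every point of `ℤ ^ n` has a good point at distance at most `R`.

The proof: by the sieve of helper521 and helper484 in the boxes of lattices (helper578, `N578/LB`) almost all families are
such that each pair `α`, `q / α` of roots can be exchanged by a Galois automorphism which fixes all the other roots. So the
Lie algebra of the endomorphisms of the Tate module which kill all Tate classes contains a Cartan subalgebra of the
symplectic Lie algebra, and it is, over a finite extension, a product of symplectic and general linear Lie algebras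
(helper166, helper204); with the theorems of Faltings this gives the result.
-/

set_option autoImplicit false

namespace Pool.Agent.Results.MP_33b3f9_ag.LatticeBoxes

open Polynomial Pool.Agent.W521.Frob Pool.Agent.W521.Descent Pool.Agent.W521.Density Pool.Agent.W521.Count
  Pool.Agent.W521.Bad Pool.Agent.W484.TB Pool.Agent.N578.LB Pool.Agent.N578.MT

/-- Let the `g i` be positive integers. (1) The proportion of the families of Weil `q`-polynomials `f i` of degree `2 g i`
(in sets between the ordinary ones and all) such that `MumfordTateFor q f` does not hold is `O (q ^ (-1 / 6) log q)`.
(2) The property `MumfordTateFor` holds `InAllLattices`: for a constant `C`, all prime powers `q`, all `B ≥ 2`, in every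
parallelepiped with sides at least `B` of every translate of a lattice whose index has at most `B ^ (1 / 4)` prime factors
the exceptions are a proportion `≤ C B ^ (-1 / 3) log B`; and for a constant `R` and `q ≥ R` every point is at distance at
most `R` from a good one. -/
theorem result {I : Type} [Fintype I] [DecidableEq I] (g : I → ℕ) (hg : ∀ i, 0 < g i) :
    (∃ C : ℝ, ∀ q : ℕ, IsPrimePow q → ∀ S : I → Set ℤ[X],
      (∀ i, ordinaryWeilPolys q (g i) ⊆ S i ∧ S i ⊆ weilPolys q (g i)) →
      (∀ i, (S i).Finite ∧ (S i).Nonempty) ∧
      ({f : I → ℤ[X] | (∀ i, f i ∈ S i) ∧ ¬ MumfordTateFor q f}.ncard : ℝ) ≤
        C * (Real.log q * (q : ℝ) ^ (-(1 / 6) : ℝ)) * ∏ i, ((S i).ncard : ℝ)) ∧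
    InAllLattices g (fun q f => MumfordTateFor q f) := by
  have key : ∀ q : ℕ, IsPrimePow q → ∀ x : (Σ i, Fin (g i)) → ℤ,
      GoodU (splitPrimes (⊥ : IntermediateField ℚ ℂ)) g q x → MumfordTateFor q (fun i => weil q (polys g x i)) :=
    fun q hq x hx ℓ _ W T V Γ _ _ _ _ _ _ _ _ per ω₀ comp ρ χ ω hR γ hχ hγ =>
      mumfordTate_of_good g hg ⊥ hq.pos.ne' x hx hR γ hχ hγ
  exact ⟨count_of_goodU (splitPrimes ⊥) (dense_splitPrimes ⊥) g hg (fun q f => MumfordTateFor q f) key,
    inAllLattices (splitPrimes ⊥) (dense_splitPrimes ⊥) g hg _ key⟩

end Pool.Agent.Results.MP_33b3f9_ag.LatticeBoxes
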