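import Mathlib
import Pool.Agent.N780.SB.Defs
import Pool.Agent.N780.SB.Defs0
import Pool.Agent.N780.SB.Stm5
import Pool.Agent.N780.SB.Zero
import Pool.Agent.N780.SB.CONST
import Pool.Agent.N780.SB.PW
import Pool.Agent.N780.SB.PU1Z
import Pool.Agent.N780.SB.PU2Z
import Pool.Agent.N780.SB.TTZ
import Pool.Agent.N780.SB.END
import Pool.Agent.N780.SB.KS

/-!
# The monodromy of coverings of the line with a moving simple branch point

Let `K` be an algebraically closed field of characteristic zero with a derivation `δ`, for example an
algebraic closure of `k(t)`, `k` a field of characteristic zero, with `δ = d/dt`. Let `C → ℙ¹` be a covering of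
degree `n` over `K` with function field `F`, which is branched over finitely many constant points `S`
(`δ c = 0` for `c ∈ S`), over infinity (possibly), and over one moving point `x = t`, `δ t = 1`, where it has
simple ramification. In terms of the discriminant: the coordinate ring `A` of the preimage of
`ℙ¹ - (S ∪ {∞})` is a free module over `O = K[x, 1/(x - c) : c ∈ S]` whose discriminant is `x - t` up to units.
The functions whose expansions at the points over `t` are series in `x - t` form an intermediate field
`F₀ ≠ F`, the function field of the largest intermediate covering `C → C₀ → ℙ¹` which is not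
branched over `x = t` (it is defined over the constants).

The forms `g dx`, `g ∈ A[1/(x - t)]`, modulo the exact ones form the algebraic de Rham cohomology
`H¹(C')` of the affine curve `C' = Spec A[1/(x - t)]`, which contains `H¹_dR(C)` and in it the space
`H⁰(C, Ω)` of the holomorphic forms. The derivation `T` of `F` with `T x = 0` extending `δ` induces the
Gauss-Manin connection.

**Theorem.**
(1) A subspace of `H⁰(C, Ω)` which is stable under the Gauss-Manin connection consists of pull-backs
of forms on `C₀` (forms `g dx` with `g ∈ F₀`).
(2) Let `V_i` be finitely many subspaces of `H¹(C')`, stable under the connection, whose sum is direct,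
such that each holomorphic form in the sum is a sum of holomorphic forms in the `V_i`. Then all but at
most one of the `V_i` contain only holomorphic forms which are pull-backs of forms on `C₀`.
(3) For two holomorphic forms `g₁ dx`, `g₂ dx` there is `(b₁, b₂) ≠ 0` in `K²` such that `b₁ T g₁ + b₂ T g₂` is
holomorphic up to exact forms: the Kodaira-Spencer map `H⁰(C, Ω) → H¹(C') / H⁰(C, Ω)` has rank at
most one.
(4) Let `V` be a subspace of `H¹(C')` stable under the connection which contains no pull-backs of
nonzero holomorphic forms on `C₀`. Every semisimple (annihilated by a separable polynomial over the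
constants) endomorphism `α` of `V` which commutes with the connection and preserves the space of the
holomorphic forms in `V` acts on this space as multiplication by a constant.
(5) If the covering `C → ℙ¹` has no intermediate coverings, there are no nonzero holomorphic forms in
`F₀`, so (4) applies to all `V`, e.g. to `V = H¹_dR(C)`.

This contains the coverings `C → B` of an arbitrary curve `B` over the constants with one simple branch
point which is not constant, and other branch points which are constant: compose with a suitable map
`x : B → ℙ¹` over the constants; then `B` is between `C` and `C₀`, and `B = C₀` if `C → B` has no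
intermediate coverings.

Consequences. Let `P = Jac(C) / Jac(C₀)` (`Jac(C)` if the covering is indecomposable), of dimension `> 0`.
Its cohomology is the space `V ⊆ H¹_dR(C)` of the classes with trace zero in `H¹_dR(C₀)`; since the trace of
a form `ω` on `C₀` is a multiple of `ω`, it satisfies the assumption of (4).
An abelian subvariety or quotient of `P` which is isotrivial would give a stable subspace of `V ∩ H⁰(C, Ω)`; by
(1) there is none, in particular the connection does not preserve `V ∩ H⁰(C, Ω)`. A decomposition of `P` up to
isogeny gives a decomposition as in (2), so `P` is absolutely simple. The elements of the division algebra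
`E = End(P) ⊗ ℚ` act on `V` as in (4), so `E` is a field with an embedding `λ : E → K` through which
it acts on `V ∩ H⁰(C, Ω)`. The Kodaira-Spencer map `V ∩ H⁰(C, Ω) → V / (V ∩ H⁰(C, Ω))` is not zero and
commutes with `E`, and `E` acts on the quotient as on the dual of `V ∩ H⁰(C, Ω)` through the Rosati
involution, i.e. by one embedding of `E`, so this embedding is `λ` too. Since `V` is a free
`E ⊗ K`-module, `E = ℚ`: all endomorphisms of `P` over extensions of `K` are multiplications by integers. So
the Mumford-Tate group `M` of `P` acts absolutely irreducibly on `H¹(P)`. Its Lie algebra contains the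
Kodaira-Spencer map, the derivative of the period map; by (3) this is an endomorphism of rank one (and
square zero) of `H¹(P)`, and a reductive irreducible Lie algebra in `𝔤𝔰𝔭` which contains such an
endomorphism contains `𝔰𝔭` (Kazhdan-Margulis; see Deligne, Weil II, 4.4). Hence `M = GSp`, the largest
possible group. The connected algebraic monodromy group of the family is a normal subgroup of `Sp` (Deligne,
André) and not trivial, so it is `Sp`. It follows that the Mumford-Tate conjecture holds for `P`,
and with it the Hodge and Tate conjectures for all powers of `P`; and since `Jac(C₀)` is constant, the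
Mumford-Tate conjecture holds for `Jac(C)` if it holds for `Jac(C₀)`.

Proof. Let `R` be the ramified point over `x = t`. The derivative `T g dx` of a holomorphic form `g dx` is
holomorphic if and only if `g dx` vanishes at `R` (Schiffer variation); if it is holomorphic up to
an exact form `dh`, then `h` has at most a simple pole at `R` and no other pole, and the residue theorem
for `h g dx` shows that again `g dx` vanishes at `R`. In (2) suppose that forms `ω_i` in `V_i` and `ω_j` in `V_j` do not
vanish at `R`; a combination `ω_i - b ω_j` vanishes there, and the components in `V_i` of its derivative show that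
the derivative of `ω_i` is holomorphic up to an exact form, a contradiction. So in all but one of the
`V_i` all holomorphic forms vanish at `R`; then they form a space which is stable under `T`, and the
expansions in powers of `√(x - t)` show that they are in `F₀`.
-/

set_option autoImplicit false

namespace Pool.Agent.Results.MP_33b3f9_ag.MovingBranchPoint

open Pool.Agent.N780.SB

universe u v

/-- The variation of Hodge structure of a covering of the line with a moving simple branch point:
no isotrivial part, no decompositions, Kodaira-Spencer rank one, no endomorphisms, except for the part of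
the largest intermediate covering which is not branched over the moving point. -/
theorem result {K : Type u} {F : Type v} [Field K] [IsAlgClosed K] [CharZero K] [Field F]
    -- a covering of degree `n`, the moving point `t`, the constant points `S`
    [Algebra (RatFunc K) F] (n : ℕ) (hn : 0 < n) (δ : Derivation ℤ K K) (t : K) (ht : δ t = 1)
    (S : Finset K) (hS : ∀ c ∈ S, δ c = 0)
    -- the affine curve `A` over `ℙ¹ - (S ∪ {∞})`, with discriminant `x - t` up to units
    (a : Fin n → F) (hA : IsAffineCurve S t a)
    -- the derivation `D = d/dx` and the derivation `T` with `T x = 0` extending `δ`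
    (D T : Derivation ℤ F F) (hD1 : D (xF K F) = 1) (hD2 : ∀ b : K, D (cF F b) = 0)
    (hT1 : T (xF K F) = 0) (hT2 : ∀ b : K, T (cF F b) = cF F (δ b)) :
    -- the field `F₀`
    (∃ F₀ : IntermediateField (RatFunc K) F, F₀ ≠ ⊤ ∧ ∀ f, f ∈ F₀ ↔ Unr t f) ∧
    -- (1) spaces of holomorphic forms stable under the Gauss-Manin connection
    (∀ W : AddSubgroup F, (∀ g ∈ W, IsHol S t a g) →
      (∀ g ∈ W, ∃ g' ∈ W, IsExact S t a D (T g - g')) → ∀ g ∈ W, Unr t g) ∧
    -- (2) decompositions compatible with the connection and the Hodge filtration
    (∀ (ι : Type) [Fintype ι] (V : ι → AddSubgroup F), (∀ i, IsStable S t a D T (V i)) →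
      (∀ g : ι → F, (∀ i, g i ∈ V i) → IsExact S t a D (∑ i, g i) → ∀ i, IsExact S t a D (g i)) →
      (∀ g : ι → F, (∀ i, g i ∈ V i) → IsHol S t a (∑ i, g i) → ∃ g' : ι → F,
        (∀ i, g' i ∈ V i ∧ IsHol S t a (g' i)) ∧ ∑ i, g i = ∑ i, g' i) →
      ∀ i j, i ≠ j → (∀ g ∈ V i, IsHol S t a g → Unr t g) ∨
        (∀ g ∈ V j, IsHol S t a g → Unr t g)) ∧
    -- (3) the Kodaira-Spencer map has rank at most one
    (∀ g₁ g₂, IsHol S t a g₁ → IsHol S t a g₂ → ∃ b₁ b₂ : K, (b₁ ≠ 0 ∨ b₂ ≠ 0) ∧
      ∃ g, IsHol S t a g ∧ IsExact S t a D (cF F b₁ * T g₁ + cF F b₂ * T g₂ - g)) ∧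
    -- (4) semisimple endomorphisms act on the holomorphic forms as constants
    (∀ V : AddSubgroup F, IsStable S t a D T V → (∀ g ∈ V, IsHol S t a g → Unr t g → g = 0) →
      ∀ α : F →+ F, IsEndo S t a D T V α → ∀ q : Polynomial K, q.Separable →
      (∀ k, δ (q.coeff k) = 0) → (∀ g ∈ V, IsExact S t a D
        (∑ k ∈ Finset.range (q.natDegree + 1), cF F (q.coeff k) * α^[k] g)) →
      ∃ μ : K, δ μ = 0 ∧ ∀ g ∈ V, IsHol S t a g → IsExact S t a D (α g - cF F μ * g)) ∧
    -- (5) coverings without intermediate coverings
    ((∀ L : IntermediateField (RatFunc K) F, L = ⊥ ∨ L = ⊤) →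
      ∀ g, IsHol S t a g → Unr t g → g = 0) := by
  have hPUI : S_PUIZ.{u, v} := part_PU2Z part_PW (part_PU1Z part_PW)
  have hTT : S_TTZ.{u, v} := part_TTZ part_PW hPUI part_TR
  have hZ : S_ZERO.{u, v} := zero_of (part_CONST part_TR) hPUI hTT
  obtain ⟨h1, h2, h3⟩ := hZ K F n hn δ t ht S hS a hA D T hD1 hD2 hT1 hT2
  refine ⟨part_F0 (part_CONST part_TR) hPUI hTT K F n hn δ t ht S hS a hA D T hD1 hD2 hT1 hT2, h1,
    h2, fun g₁ g₂ hg₁ hg₂ => part_KS (part_CONST part_TR) hPUI hTT K F n hn δ t ht S hS a hA D T
      hD1 hD2 hT1 hT2 g₁ g₂ hg₁ hg₂, ?_, h3⟩
  intro V hV hV0 α hα q hq hqc hqe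
  exact part_END hZ K F n hn δ t ht S hS a hA D T hD1 hD2 hT1 hT2 V hV hV0 α hα q hq hqc hqe

end Pool.Agent.Results.MP_33b3f9_ag.MovingBranchPoint
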