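import Mathlib
import Pool.Agent.N183.U6.Mt
import Pool.Agent.N183.U6.Sup

/-!
# The Mumford-Tate conjecture for superelliptic Jacobians with symmetric Galois groups

Let `p` be an odd prime number, `q` a power of `p`, `f` a polynomial of degree `n ≥ 5`, prime to `p`,
without multiple roots, over a number field `k` which contains the roots of unity of order `q`.
Suppose that the Galois group of `f` over `k` is the symmetric group `S_n` (or the alternating group,
and `n ≥ 10`). The theorem shows the Mumford-Tate conjecture (for `ℓ = p`, and thus for all `ℓ` by the
theorem of Larsen and Pink) for the Jacobian of the curve `y ^ q = f(x)`, and for all products of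
Jacobians of this kind, for different `f` and different powers `q` of `p`. There is no other
condition on `n`, `q` and `f`; the signatures `(⌊n i / q⌋, ⌊n (q - i) / q⌋)` need not be coprime, and
some may be definite. (There are classes of Weil type on these products, by the relations between
the multiplicities for different `q`.)

Indeed the simple factors are the new parts `Y` of the Jacobians of the curves `y ^ r = f(x)` for
`r` dividing `q`, with `End(Y) ⊗ ℚ = ℚ(ζ)`, and the Galois group acts on `T_p(Y) / (1 - ζ)` as on the
functions on the roots of `f` with values in the field with `p` elements and with sum zero (Zarhin).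
For an element `γ` of the Galois group which acts on the roots as a transposition the limit of the
powers `γ ^ (p ^ (m!))` acts as a reflection of order two on each eigenspace `V_s` of `ζ` on
`ℂ ⊗ V_p(Y)`; no other property of the Galois group is used. (For the alternating group and
`n ≥ 10` we use conjugation by the products of two of five disjoint transpositions: conjugation by
the first reflection is a linear combination of those.)

The general theorem. Let `X` be an abelian variety over a finitely generated field of characteristic
zero embedded in `ℂ`. We prove the Mumford-Tate conjecture for `X` in the form: all Tate classes in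
the tensor powers `(H^1)^{⊗ 2 m}(m)` are `ℚ_ℓ`-linear combinations of Hodge classes. (Together with
the theorem of Deligne this is the equality of the Mumford-Tate group over `ℚ_ℓ` and of the connected
component of the `ℓ`-adic monodromy group: both are reductive and contain the homotheties, so that
they are determined by their invariants in these spaces.) Each simple factor `Y` of `X` over `ℂ` has
to satisfy one of the following conditions.

* The dimension of `Y` is at most three, or `Y` has complex multiplication (`HasCMult`).
* `QuadThree`: the endomorphism algebra of `Y` is an imaginary quadratic field, and its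
  multiplicities on the tangent space are at most three.
* `RealOdd`: `Y` is of Albert type I or II, and the relative dimension is odd or at most three.
* `CopMult`: for a maximal subfield `ℚ[a]` of the endomorphism algebra, of degree `m`, and for one
  embedding `s : ℚ[a] → ℂ`, the multiplicity of `s` on the tangent space is prime to the dimension
  `r = 2 dim(Y) / m` of the eigenspaces `V_s` of `a` on `V(Y)`.
* `GalMultTwo`: for each embedding `s` of a maximal subfield `ℚ[a]` of the endomorphism algebra
  - there is a pseudo-reflection (or a transvection) of `V_s` conjugation by which is a linear
    combination of conjugations by elements of the Galois group commuting with all endomorphisms, for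
    instance a pseudo-reflection which is an element of the Galois group; if it is a reflection of
    order two then `Y` has to be of type IV (`GalRefl`); or
  - some element of the Galois group, commuting with all endomorphisms, acts on `V_s` with
    eigenvalues in just two classes, of coprime multiplicities (`TwoClasses`).
  There is no condition on the dimension and on the signature of `Y`.

There is one condition on the centre `F` of `End(X) ⊗ ℚ`: the function of its multiplicities `N(s)` on
the tangent space (`IsCentreMult`) is separated (`IsSeparated`), or each embedding `s` with
`N(s) ≠ 0` is totally real or of superelliptic type (`AllSuper`), for arbitrary prime powers `q` and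
degrees `n ≥ 4` prime to `q`, depending on `s`. Separation means that if the signatures of two
embeddings `s` (with a mixed conjugate) and `s'` are not always proportional then they are not
proportional for some conjugates one of which is mixed. This is no condition if no embedding of `F`
which belongs to a factor without complex multiplication is definite. Without separation two
components can be twists of each other by a character which is visible only at the definite places.
Neither the theorem on the centres of Mumford-Tate groups (Vasiu, Ullmo-Yafaev) nor the one on
products (Vasiu, Commelin) nor the absence of twists is assumed: all this is part of the conclusion.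

The proof. The Lie algebra `𝔤` generated by the Hodge-Tate elements over `ℂ_ℓ` is normalized by the
Galois group. If an irreducible Lie algebra `𝔤 ⊆ 𝔤𝔩(V)` is normalized by a reflection of order two
then it contains an element of rank one or it preserves a nondegenerate quadratic form up to a
factor; this is shown by an elementary computation with the odd part of `𝔤` (no classification is
used). In the second case `V_s` and its complex conjugate are twists of each other, and separation
shows that they are isomorphic, which is impossible for type IV.
-/

namespace Pool.Agent.Results.MP_33b3f9_ag.SeparatedCentres

open Module Pool.Agent.Y90 Pool.Agent.R915 Pool.Agent.Y224.TS.St Pool.Agent.N183.TS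
  Pool.Agent.N183.U5 Pool.Agent.N183.U6 TensorProduct

/-- **Tate tensors** on an abelian variety `X`, given (as a complex abelian variety) by `X : AV`, a
polarization `E` and the representation `ρ` of the Galois group `Γ` on the Tate module
`ℚ_ℓ ⊗ H_1(X, ℚ)`, with the known properties of the Tate module (`IsTateModule`; `χ` is the
cyclotomic character, and `ℂ` is identified with an algebraic closure of `ℚ_ℓ`). Suppose that the
simple factors of `X` over `ℂ` are as above, and that the multiplicity function `N` of the centre of
`End(X) ⊗ ℚ` is separated, or that each embedding occurring in it is totally real or of
superelliptic type. Then each Tate tensor `φ` (a multilinear form in `2 m` variables on the Tate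
module on which a subgroup of finite index acts through `χ ^ m`) is a `ℚ_ℓ`-linear combination of
Hodge tensors. -/
theorem result (X : AV) (E : X.H → X.H → ℚ) (hE : Pool.Agent.Y90.St.IsPolarization X.per E)
    (ℓ : ℕ) [Fact ℓ.Prime] [Algebra ℚ_[ℓ] ℂ] [Algebra.IsAlgebraic ℚ_[ℓ] ℂ]
    {Γ : Type} [Group Γ] (ρ : Representation ℚ_[ℓ] Γ (ℚ_[ℓ] ⊗[ℚ] X.H)) (χ : Γ →* ℚ_[ℓ])
    (hρ : IsTateModule X.per E ρ χ)
    (hX : ∀ Y, IsFactor Y X → finrank ℚ Y.H ≤ 6 ∨ HasCMult Y ∨ QuadThree Y ∨ RealOdd Y ∨
      CopMult Y ∨ GalMultTwo X ρ Y)
    (N : ℂ → ℕ) (hN : IsCentreMult X N) (hN' : IsSeparated N ∨ AllSuper N)
    {m : ℕ} (φ : MultilinearMap ℚ_[ℓ] (fun _ : Fin m × Fin 2 => ℚ_[ℓ] ⊗[ℚ] X.H) ℚ_[ℓ])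
    (hφ : ∃ Δ : Subgroup Γ, Δ.FiniteIndex ∧ ∀ g ∈ Δ, ∀ v : Fin m × Fin 2 → ℚ_[ℓ] ⊗[ℚ] X.H,
      φ (fun k => ρ g (v k)) = χ g ^ m * φ v) :
    ∃ (n : ℕ) (c : Fin n → ℚ_[ℓ])
      (f : Fin n → MultilinearMap ℚ (fun _ : Fin m × Fin 2 => X.H) ℚ),
      (∀ j, IsHodgeTensor X.per (f j)) ∧
        ∀ v : Fin m × Fin 2 → X.H, φ (fun k => 1 ⊗ₜ v k) = ∑ j, c j * ((f j v : ℚ) : ℚ_[ℓ]) :=
  Pool.Agent.N183.U6.tate_tensor X hE hX hN (hN'.elim id AllSuper.sep) hρ φ hφ

end Pool.Agent.Results.MP_33b3f9_ag.SeparatedCentres
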