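import Pool.Agent.N996.TQ.Fin

/-!
# The Mumford-Tate conjecture for an abelian variety and the endomorphisms of its middle cohomology

Let `X` be an abelian variety of dimension `g` over a finitely generated subfield of the complex
numbers. We prove: the Mumford-Tate conjecture for `X`, that is, the statement that the Tate classes
on **all powers** of `X` are combinations of Hodge classes, is equivalent to its part for the Tate
classes in `(H^g(X) ⊗ H^g(X))(g) ⊆ H^(2 g)(X × X)(g)`. By Poincare duality this space is the algebra
of endomorphisms of the middle cohomology `H^g(X)`: so the Mumford-Tate conjecture for `X` says that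
every endomorphism of the `ℓ`-adic cohomology group `H^g(X)` which commutes with an open subgroup of
the Galois group is a combination of endomorphisms of the rational Hodge structure `H^g(X)`. In
particular the conjecture for `X` is equivalent to its part for the classes of the middle degree
`2 g` on the **square** `X × X`.

The hypotheses (`IsAbelian`) on `X` are: the algebra `H(X)` is generated by `H^1(X)`, of dimension
`2 g`, and the following theorems, which are known for abelian varieties:

* the Hodge classes on the powers of `X` are Tate classes (Deligne);
* the action of the Galois group by conjugation on the endomorphisms of the `ℓ`-adic cohomology of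
  `X` is semisimple (Faltings);
* the centre of the Lie algebra of the Hodge group of `X` kills the Tate classes on the powers of `X`
  (that is, it is contained in the Lie algebra of the image of Galois: Vasiu, Ullmo and Yafaev);
* the Lie algebra of the image of Galois is generated, over the complex numbers, by its elements of
  Hodge-Tate type: those with the eigenvalues `1` and `-1` on `H^1(X)` (Serre, Pink).

**The setting.** `𝒱`, `ops`: a class of varieties with algebraic cycles; `T`: a Weil cohomology theory
`H` with rational coefficients and a Hodge decomposition of `ℂ ⊗ H` (`X ↦ H(X(ℂ), ℚ)`); `E : Adic T.W`: a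
prime `ℓ` and an action of a group `Γ` (the Galois group) on `ℚ_ℓ ⊗ H` with its formal properties.
`pw X n` is the product of `n + 1` copies of `X`.

**The proof.** Let `𝔥` be the Lie algebra of the Hodge group over `ℚ_ℓ` (the endomorphisms of
`ℚ_ℓ ⊗ H(X)` which kill all Hodge classes on the powers) and `𝔤 ⊆ 𝔥` the Lie algebra of the
endomorphisms which kill all Tate classes. Assume that the Tate classes in `(H^g(X) ⊗ H^g(X))(g)`
are combinations of Hodge classes.

1. By semisimplicity the module `H^g(X)` is semisimple for the algebra `R` generated by the twisted
   `ℓ`-adic logarithms of the elements of a small open subgroup of the Galois group. The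
   endomorphisms of `H^g(X)` which commute with `R` give Tate classes in `(H^g(X) ⊗ H^g(X))(g)`, so
   they commute with `𝔥`. By the density theorem the elements of `𝔥` act on `H^g(X)` as elements of
   `R`. (The cohomology is split over the Galois group by a trace argument: only the semisimplicity
   of the adjoint representation is used.)
2. Let `N` be an element of `ℂ ⊗ 𝔤` of Hodge-Tate type. It has trace zero on `ℂ ⊗ H^1(X)`, so its
   eigenspaces for `1` and `-1` have dimension `g`, and it has the eigenvalues `-2, 0, 2` on `ℂ ⊗ 𝔥`.
   Let `u` in `ℂ ⊗ H^g(X)` be the product of the elements of a basis of an eigenspace of `N` in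
   `ℂ ⊗ H^1(X)`, and let `y` be in `ℂ ⊗ 𝔥` with `[N, y] = -2 y`. By 1. the vector `y u` is in the
   `𝔤`-module generated by `u`, whose eigenvectors for `N` next to `u` are the `y' u` with `y'` in
   `ℂ ⊗ 𝔤` of degree `-2`; so `y u = y' u`, and the trace form (with the positivity of the
   polarisation) shows `y = y'`. So `[N, 𝔥] ⊆ ℂ ⊗ 𝔤`.
3. Let `π` be a projector onto `𝔤` which commutes with the adjoint action of the logarithms. Then
   `π` gives a Tate class on `X^4`, hence it commutes with `ad N`, and for `y` in `𝔥` the element
   `b = y - π(y)` commutes with all elements `N` of Hodge-Tate type. Hence `b` commutes with an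
   open subgroup of the Galois group, it gives a Tate class in `(H^g(X) ⊗ H^g(X))(g)` and commutes
   with `𝔥` on `H^g(X)`. As `𝔥` acts faithfully on `H^g(X)`, `b` commutes with `𝔥`. By the
   assumption on the centre it kills all Tate classes. So `𝔥` kills all Tate classes, and then the
   Tate classes are combinations of Hodge classes.
-/

open CategoryTheory AlgebraicGeometry
open Pool.Agent.H914 Pool.Agent.H914.VarClass Pool.Agent.H914.VarClass.Obj
open Pool.Agent.Y121.AHS (HodgeTheory)
open Pool.Agent.Y133.Half (pw)
open Pool.Agent.N202.TB.Ad Pool.Agent.N996.TQ

universe u

namespace Pool.Agent.Results.MP_33b3f9_ag.SquareMumfordTate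

/-- **The Mumford-Tate conjecture for an abelian variety `X` of dimension `g` is equivalent to its
part for the Tate classes in `(H^g(X) ⊗ H^g(X))(g)` on `X × X`.** -/
theorem result {k : Type u} [Field k] {𝒱 : VarClass k} {ops : CycleOps 𝒱} (T : HodgeTheory ops)
    (E : Adic T.W) (X : 𝒱.Obj) (ψ : Form T.W X) (hψ : IsPolarisation T X ψ)
    (h : IsAbelian E X) :
    (∀ n, MumfordTate E (pw X n)) ↔ MiddleTateIsHodge E X :=
  mt_iff_middle hψ h

end Pool.Agent.Results.MP_33b3f9_ag.SquareMumfordTate
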